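import Pool.Agent.X17.HL.Single

/-!
# 4-homogeneous latin squares of orders not divisible by 8

There are 4-homogeneous latin squares of all orders `30 m` and `12 m`, `m` odd.
-/

set_option autoImplicit false

open Finset

namespace Pool.Agent.Results.MP_11217e_co.OrdersNotDivisibleByEight

/-- latin squares: the rows and the columns have pairwise distinct entries -/
def IsLatin {n : ℕ} (L : Fin n → Fin n → Fin n) : Prop :=
  (∀ r, Function.Injective (L r)) ∧ ∀ c, Function.Injective fun r => L r c

/-- the intercalates through the cell `(r, c)`, each given by its opposite corner `(r', c')` -/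
def intercalatesAt {n : ℕ} (L : Fin n → Fin n → Fin n) (r c : Fin n) : Finset (Fin n × Fin n) :=
  univ.filter fun p => p.1 ≠ r ∧ p.2 ≠ c ∧ L r c = L p.1 p.2 ∧ L r p.2 = L p.1 c

/-- every cell of `L` lies in exactly `h` intercalates -/
def IsHomogeneous {n : ℕ} (h : ℕ) (L : Fin n → Fin n → Fin n) : Prop :=
  ∀ r c, (intercalatesAt L r c).card = h

/-- there is an `h`-homogeneous latin square of order `n` -/
def Attained (n h : ℕ) : Prop :=
  ∃ L : Fin n → Fin n → Fin n, IsLatin L ∧ IsHomogeneous h L

theorem attained_of_att {n h : ℕ} (H : Pool.Agent.X17.HL.Att n (h + 1)) : Attained n h := by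
  obtain ⟨L, h1, h2⟩ := Pool.Agent.X17.HL.fin_of_att H
  exact ⟨L, h1, h2⟩

/-- For every odd `m` there are 4-homogeneous latin squares of the orders `30 m` and `12 m`, and
neither order is divisible by `8`. -/
theorem result : ∀ m : ℕ, Odd m →
    (¬ 8 ∣ 30 * m ∧ Attained (30 * m) 4) ∧ (¬ 8 ∣ 12 * m ∧ Attained (12 * m) 4) := by
  intro m hm
  refine ⟨⟨?_, ?_⟩, ?_, ?_⟩
  · obtain ⟨k, rfl⟩ := hm; omega
  · have h := Pool.Agent.X17.HL.att_thirty.mul (Pool.Agent.X17.HL.att_odd hm)
    exact attained_of_att h
  · obtain ⟨k, rfl⟩ := hm; omega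
  · have h3 : Odd (3 * m) := (by decide : Odd 3).mul hm
    have hm0 : 0 < m := hm.pos
    have h := Pool.Agent.X17.HL.att_two (b := 3 * m) (x := 1) (y := 3) h3 (one_dvd _)
      (Dvd.intro _ rfl) (by omega)
    have e1 : 4 * (3 * m) = 12 * m := by ring
    rw [e1] at h
    exact attained_of_att h

end Pool.Agent.Results.MP_11217e_co.OrdersNotDivisibleByEight
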